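import Pool.Agent.Lib.MP_1a91b9_ntS.Q.Lim

/-!
# MP_1a91b9_nt, quadratic twists over multiquadratic extensions of `Q(sqrt -3)`: the statement of
part D

The element of the class `c` modulo 4 with the set `S` of primes is `dlc c S` (up to a cube root of
unity). The twists by `dlc c S` and `dlc (c + 1) S = - dlc c S` are not independent; therefore the
labels are different modulo `-1`.
-/

set_option autoImplicit false

namespace Pool.Agent.Lib.MP_1a91b9_ntP

open NumberField Finset Pool.Agent.Lib.MP_1a91b9_ntT Pool.Agent.Lib.MP_1a91b9_ntH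
  Pool.Agent.Lib.MP_1a91b9_ntH2 Pool.Agent.Lib.MP_1a91b9_ntE Pool.Agent.Lib.MP_1a91b9_ntS

noncomputable section

/-- The set `S` is good for the class `c` (`f = true` if `δ` is even). -/
def GdE (f : Bool) (c : F4) (S : Finset Pq) : Prop :=
  if f then (qE.NE c S).det ≠ 0 else ((tw c qd).M S).det ≠ 0

open Classical in
/-- The joint density of the good sets of primes (part D). -/
def DSJ2 : Prop := ∀ N : ℕ, 0 < N → ∀ (f : Fin N → Bool) (c : Fin N → F4) (T : Fin N → Finset Pq)
  (B : Finset Pq), (∀ i, T i ⊆ B) → Function.Injective (fun i => (f i, F4.tr (c i), T i)) →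
  ∀ (α : F4) (κ₀ : ℝ), κ₀ < Da.cinf ^ N → ∀ ε : ℝ, 0 < ε → ∃ X₀ : ℕ, ∀ X : ℕ, X₀ ≤ X →
    κ₀ * (((Sx Pq X).filter fun S => Disjoint S B ∧ qd.A S = α).card : ℝ) - ε * X ≤
    (((Sx Pq X).filter fun S => Disjoint S B ∧ qd.A S = α ∧
      ∀ i, GdE (f i) (c i) (S ∪ T i)).card : ℝ)

end

end Pool.Agent.Lib.MP_1a91b9_ntP
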